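import Pool.Agent.Q298.EF.Geo

/-!
# Uniruled, or equality of Kodaira and numerical dimension, for fibrations in curves of genus one

Let `X` be a projective variety with terminal singularities (for instance a manifold) of dimension
`d + e`, and `|V|` a linear system on `X` without fixed components, of dimension `n = d + k`, whose
rational map `X ⇢ ℙⁿ` has an image `Y` of dimension `d ≥ 1`; `Y` may be any nondegenerate variety of
dimension `d`, for instance rational. Suppose:

* (the members) `D i` (`i < q`) are finitely many members of `|V|`, in arbitrary position, which span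
  `V`, and `V` is not the direct sum of two nonzero subspaces such that each `D i` belongs to one of
  them; at every prime divisor `P` of `X` which is a component of some `D i`, some `D i'` has the
  multiplicity at least `s`, where `2 s > R (k + 1) (k + 2)` with `R = n + 2`, or `R = n + 1` if
  there are at least `n + 3` different members;
* (the fibres) for some variety `Y''` with a generically finite map to `Y`, ramified anywhere, the main
  component `X''` of the fibre product `X ×_Y Y''` (its function field is `K'' = K(α)`, where `α` is
  algebraic over the function field of `Y`) is birational to a fibre product over `Y'` of `e ≥ 1`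
  double covers `y_j² = F_j(x_j)` of `Y' × ℙ¹`, where `Y'` is generically finite over `Y''` (its function
  field is the algebraic closure of the one of `Y` in `K''`) and the nonzero polynomials `F_j` over it
  have degree at most `4`, and may have multiple roots.

So the geometric generic fibre is a product of `e` curves of genus at most one; for `e = 1` the
condition on the fibres is that `X ⇢ Y` is a fibration in curves of genus at most one, of any index,
with any singular and multiple fibres. On `X` itself the monodromy may permute the factors.

Then `X` is uniruled, or `κ(X) = ν(X) = d`. (It is known that `κ = ν` implies that `X` has a good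
minimal model.)

The function-field language of the starting repository is used. `K` is the function field of `X`;
the prime divisors of `X` are places `P` of `K` (`Place`, `Divisorial`), `P.ord` is the order along
`P`, and `X` is given by the set of its prime divisors. The linear system is given by the finite
dimensional space `V` of rational functions: if `a` is the minimum of the orders at `P` of the
members of `V` then the multiplicity of `P` in the divisor of the system which is given by `f ∈ V` is
`P.ord f - a`. A section of `N K_X` is an `N`-canonical form `ω` (`IsPluri`), a function of `d + e`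
rational vector fields, whose value on vector fields that are regular at `P` is regular at `P`, for
all prime divisors `P` of `X`. `NumLe ℂ K (d + e) (fun _ => False) d` says that `ν(X) ≤ d`: for every
divisor `A`, given as the polar divisor of finitely many rational functions on a smooth model, there
is a constant `C` with `h⁰(m K_X + A) ≤ C m ^ d` for all `m ≥ 1`.

Proof (`Pool.Agent.Q298.EF`). Over `K''` the discriminant forms of the double covers are pluricanonical
forms along the fibres, regular at all divisors, vertical ones included (`hyp_forms`); the extension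
is unramified at the horizontal divisors, and at the vertical divisors the vector fields along the
fibres are logarithmic, so that symmetric functions of the conjugates of the forms are such forms on
`X` (`Pool.Agent.Y191.push`). Their products with generalised Wronskians of `V` give the lower bound.
On the curves `y² = f(x)`, `f` separable of degree three or four, over an algebraically closed field
the vector field `y d/dx` has neither zeros nor poles, so a product of such curves has numerical
dimension `0`; `ν` is subadditive in the fibration (`easy_add`) and does not increase under the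
generically finite map `X'' ⇢ X`.
-/

set_option autoImplicit false

open FF Pool.Agent.W602.GT Pool.Agent.W619.TW

namespace Pool.Agent.Results.MP_fa3f7f_ag.GenusOneAfterBaseChange

/-- The function field of the image of the rational map which is given by the linear system `V`: the
field generated by the quotients of the members. -/
noncomputable def ImageField {K : Type} [Field K] [Algebra ℂ K] (V : Submodule ℂ K) :
    IntermediateField ℂ K :=
  IntermediateField.adjoin ℂ {y : K | ∃ f ∈ V, ∃ g ∈ V, y = f / g}

/-- `V` is the direct sum of two nonzero subspaces such that each `φ i` belongs to one of them. -/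
def Splits {q : ℕ} {K : Type} [Field K] [Algebra ℂ K] (V : Submodule ℂ K) (φ : Fin q → K) : Prop :=
  ∃ V1 V2 : Submodule ℂ K, V1 ≠ ⊥ ∧ V2 ≠ ⊥ ∧ Disjoint V1 V2 ∧ V1 ⊔ V2 = V ∧
    ∀ i, φ i ∈ V1 ∨ φ i ∈ V2

/-- There are `r` members `φ i` of which no two are proportional. -/
def Different (r : ℕ) {q : ℕ} {K : Type} [Field K] [Algebra ℂ K] (φ : Fin q → K) : Prop :=
  ∃ τ : Fin r → Fin q, ∀ i j, i ≠ j → ∀ t : ℂ, φ (τ i) ≠ t • φ (τ j)

/-- The condition on the multiplicities, on a variety `X` of dimension `w`: if the prime divisor `P`
of `X` is a component of one of the divisors `D i` (the order of `φ i` at `P` is not the minimum `a`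
of the orders of the members of `V`), then some `D i` has multiplicity at least `s` at `P`. -/
def Multiplicities (w : ℕ) {q : ℕ} {K : Type} [Field K] [Algebra ℂ K] (V : Submodule ℂ K)
    (φ : Fin q → K) (X : Set (Place ℂ K)) (s : ℕ) : Prop :=
  ∀ P ∈ X, Divisorial w P → ∀ a : ℤ, (∀ f ∈ V, f = 0 ∨ a ≤ P.ord f) →
    (∃ f ∈ V, f ≠ 0 ∧ P.ord f = a) → (∃ i, P.ord (φ i) ≠ a) → ∃ i, a + s ≤ P.ord (φ i)

/-- The image of the subfield `L` of `K` in the extension `K'`. -/
noncomputable def Up {K : Type} (K' : Type) [Field K] [Field K'] [Algebra ℂ K] [Algebra ℂ K']
    [Algebra K K'] [IsScalarTower ℂ K K'] (L : IntermediateField ℂ K) : IntermediateField ℂ K' :=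
  L.map (IsScalarTower.toAlgHom ℂ K K')

/-- `K'` is the function field of the fibre product of the `e` double covers `y j ^ 2 = F j (x j)` of
`Y' × ℙ¹`, where the function field of `Y'` is the algebraic closure of `L` in `K'`: `F j` is a
nonzero polynomial of degree at most `4` whose coefficients are algebraic over `L`, the `x j` are a
transcendence basis of `K'` over `L`, and `K'` is generated by the elements which are algebraic over
`L` and the `x j` and `y j`. -/
def FibreProduct {e : ℕ} {K' : Type} [Field K'] [Algebra ℂ K'] (L : IntermediateField ℂ K')
    (F : Fin e → Polynomial K') (x y : Fin e → K') : Prop :=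
  (∀ j, F j ≠ 0 ∧ (F j).natDegree ≤ 4 ∧ (∀ i, IsAlgebraic L ((F j).coeff i)) ∧
    y j ^ 2 = (F j).eval (x j)) ∧ IsTranscendenceBasis L x ∧
    IntermediateField.adjoin ℂ ({a | IsAlgebraic L a} ∪ Set.range x ∪ Set.range y) = ⊤

/-- Some extension `K' = K (α)` of `K`, `α` algebraic over the subfield `L`, is the function field of
a fibre product of `e` double covers, with at most four branch points along the generic fibres. -/
def GenusAtMostOne {K : Type} [Field K] [Algebra ℂ K] (L : IntermediateField ℂ K) (e : ℕ) : Prop :=
  ∃ (K' : Type) (_ : Field K') (_ : Algebra ℂ K') (_ : Algebra K K') (_ : IsScalarTower ℂ K K')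
    (α : K'), IsAlgebraic (Up K' L) α ∧ IntermediateField.adjoin K {α} = ⊤ ∧
    ∃ (F : Fin e → Polynomial K') (x y : Fin e → K'), FibreProduct (Up K' L) F x y

/-- `ω` is a section of `N K_X`, where `X` of dimension `w` is given by the set of its prime divisors:
an `N`-canonical form whose values on vector fields which are regular at `P` are regular at `P`, for
all prime divisors `P` of `X`. -/
def IsSection {K : Type} [Field K] [Algebra ℂ K] (w : ℕ) (X : Set (Place ℂ K)) (N : ℕ)
    (ω : (Fin w → Derivation ℂ K K) → K) : Prop :=
  IsPluri N ω ∧ ∀ P ∈ X, Divisorial w P → ∀ D : Fin w → Derivation ℂ K K,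
    (∀ i, DerReg P (D i)) → P.Reg (ω D)

/-- `κ (X) ≥ κ`: some positive multiple of `K_X` has sections with `κ` algebraically independent
ratios (a nonzero section, if `κ = 0`). -/
def KodairaGe {K : Type} [Field K] [Algebra ℂ K] (w : ℕ) (X : Set (Place ℂ K)) (κ : ℕ) : Prop :=
  ∃ N : ℕ, 0 < N ∧ ∃ ω : Fin (κ + 1) → (Fin w → Derivation ℂ K K) → K,
    (∀ j, IsSection w X N (ω j)) ∧
    ∃ D, ω 0 D ≠ 0 ∧ AlgebraicIndependent ℂ (fun i : Fin κ => ω i.succ D / ω 0 D)

/-- Uniruled function fields of transcendence degree `w`: `K` embeds into the field of rational
functions `M(t)` over the function field `M` of a variety of dimension `w - 1`. -/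
def IsUniruled (K : Type) [Field K] [Algebra ℂ K] (w : ℕ) : Prop :=
  ∃ (M : Type) (_ : Field M) (_ : Algebra ℂ M), Algebra.EssFiniteType ℂ M ∧
    Algebra.trdeg ℂ M + 1 = w ∧ Nonempty (K →ₐ[ℂ] RatFunc M)

/-- **Uniruled, or abundance.** Let `K` be the function field of a projective variety `X` with
terminal singularities of dimension `d + e`, `V` a linear system of dimension `d + k` on `X` whose
rational map has an image `Y` of dimension `d ≥ 1`; `φ i` nonzero members which span `V`, such that
`V` does not split into a direct sum, `R = d + k + 2`, or `R = d + k + 1` if there are `d + k + 3`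
different members, and `s` a number with `2 s > R (k + 1) (k + 2)` for which the condition on the
multiplicities holds. Let `X` become birational, after a generically finite base change `Y'' → Y`, to
a fibre product of `e ≥ 1` double covers with at most four branch points. Then `X` is uniruled, or
`κ (X) = ν (X) = d`. -/
theorem result (d e k q : ℕ) (hd : 1 ≤ d) (he : 1 ≤ e) (K : Type) [Field K]
    [Algebra ℂ K] [Algebra.EssFiniteType ℂ K] (hK : Algebra.trdeg ℂ K = (d + e : ℕ))
    (V : Submodule ℂ K) (hn : Module.finrank ℂ V = d + k + 1)
    (hV : Algebra.trdeg ℂ (ImageField V) = d)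
    (φ : Fin q → K) (hφ0 : ∀ i, φ i ≠ 0) (hφ : Submodule.span ℂ (Set.range φ) = V)
    (hγ : ¬ Splits V φ)
    (R : ℕ) (hR : R = d + k + 2 ∨ (Different (d + k + 3) φ ∧ R = d + k + 1))
    (X : Set (Place ℂ K)) (s : ℕ) (hs : R * ((k + 1) * (k + 2)) < 2 * s)
    (h : Multiplicities (d + e) V φ X s) (hF : GenusAtMostOne (ImageField V) e) :
    IsUniruled K (d + e) ∨
      (KodairaGe (d + e) X d ∧ NumLe ℂ K (d + e) (fun _ => False) d) := by
  obtain ⟨K', _, _, _, _, α, hα, hαt, F, x, y, hF, hx, hgen⟩ := hF
  have hLK : ImageField V ≤ ⊤ := le_top
  have hαK : IsAlgebraic K α := by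
    have h1 : ∀ z ∈ Up K' (ImageField V), ∃ a : K, algebraMap K K' a = z := by
      intro z hz
      unfold Up at hz
      rw [IntermediateField.mem_map] at hz
      obtain ⟨a, -, ha⟩ := hz
      exact ⟨a, ha⟩
    obtain ⟨p, hp0, hp⟩ := hα
    obtain ⟨p', hp'⟩ : ∃ p' : Polynomial K, p'.map (algebraMap K K') =
        p.map (algebraMap (Up K' (ImageField V)) K') := by
      refine (Polynomial.mem_lifts _).1 ((Polynomial.lifts_iff_coeff_lifts _).2 fun i => ?_)
      rw [Polynomial.coeff_map]
      obtain ⟨a, ha⟩ := h1 _ (p.coeff i).2
      exact ⟨a, ha⟩
    refine ⟨p', ?_, ?_⟩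
    · rintro rfl
      rw [Polynomial.map_zero] at hp'
      exact hp0 ((Polynomial.map_eq_zero _).1 hp'.symm)
    · rw [← Polynomial.eval_map_algebraMap, hp', Polynomial.eval_map_algebraMap]
      exact hp
  have hfin : FiniteDimensional K K' := by
    have h1 : FiniteDimensional K (IntermediateField.adjoin K {α}) :=
      IntermediateField.adjoin.finiteDimensional hαK.isIntegral
    rw [hαt] at h1
    exact Module.Finite.of_surjective
      (IntermediateField.topEquiv : (⊤ : IntermediateField K K') ≃ₐ[K] K').toLinearMap
      (IntermediateField.topEquiv).surjective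
  have htop : ∀ z : K', ∃ p : Polynomial K, z = Polynomial.aeval α p := by
    intro z
    have h1 : z ∈ IntermediateField.adjoin K {α} := by
      rw [hαt]
      trivial
    rw [← IntermediateField.mem_toSubalgebra,
      IntermediateField.adjoin_simple_toSubalgebra_of_isAlgebraic hαK,
      Algebra.adjoin_singleton_eq_range_aeval] at h1
    obtain ⟨p, hp⟩ := h1
    exact ⟨p, hp.symm⟩
  rcases Pool.Agent.Q298.EF.geo_main he hK hV (α := α) hα htop hx (fun j => (hF j).1)
    (fun j => (hF j).2.2.1) (fun j => (hF j).2.2.2) hgen (fun j => (hF j).2.1) X with h1 | ⟨h1, h2⟩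
  · exact Or.inl h1
  · refine Or.inr ⟨?_, h2⟩
    obtain ⟨m, hm, θ, hθ, hne⟩ := h1
    have hs' : (R : ℝ) * (((k : ℝ) + 1) * ((k : ℝ) + 2)) < 2 * (s : ℝ) := by exact_mod_cast hs
    obtain ⟨N, hN, ω, h5, h6⟩ := Pool.Agent.Q298.EF.lin_one hd hK hn hV hφ0 hφ hγ hR X
      (fun _ => 0) (fun _ => 0) (fun _ => 0) (fun _ _ => le_rfl) (fun _ _ => by simp) hs'
      (fun P hPX hPd a ha hb hc => by
        obtain ⟨i, h5⟩ := h P hPX hPd a ha hb hc
        refine ⟨i, ?_⟩
        have h7 : (s : ℤ) ≤ P.ord (φ i) - a := by omega
        have h8 : ((s : ℤ) : ℝ) ≤ ((P.ord (φ i) - a : ℤ) : ℝ) := by exact_mod_cast h7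
        simpa using h8) hm (θ := θ) hθ hne
    refine ⟨N, hN, ω, fun j => ⟨(h5 j).1, fun P hPX hPd D hD => ?_⟩, h6⟩
    rcases (h5 j).2 P hPX hPd D hD with h7 | h7
    · exact Or.inl h7
    · right
      have h8 : (0 : ℝ) ≤ (P.ord (ω j D) : ℝ) := by simpa using h7
      exact_mod_cast h8

end Pool.Agent.Results.MP_fa3f7f_ag.GenusOneAfterBaseChange
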