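import Pool.Agent.W619.Y.Main

/-!
# The minimal model conjecture for quotients of products of a variety and curves

Let `Y` be a projective variety of dimension `d` with function field `M` (for instance a point,
`d = 0`), `F i` (`i < n`) the function fields of curves `C i`, `Z` the product of `Y` and the
curves, with function field `L`, and `G` a finite group of automorphisms of `L` which permutes the
curves through `σ`; `G` may act on `Y` and on the product of the curves in an arbitrary way, it only
has to satisfy the condition `MixedPos` (`Pool/Agent/W619/Y/Cond`), for instance that the fixed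
locus on the product of the curves of each `g ≠ 1` in `G` is empty or of codimension at least `7`.
Let `X` be a variety birational to `Z / G`; its function field is `fixedField G`.

Everything is expressed in the function field: `IsUniruled` is uniruledness; `IsPsef` says that the
canonical divisor of a smooth projective model is pseudo-effective; `KodTr`, `KodGe` say that its
Kodaira dimension `κ` is at least the given number (algebraically independent ratios of
pluricanonical forms; growth of the plurigenera); `NumLe` that its numerical dimension `ν` is at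
most the given number, `NumNeg` that `ν = -∞` (`Pool/Agent/W619/PQ`, `Pool/Agent/W619/TW`).
-/

set_option autoImplicit false
set_option linter.overlappingInstances false

universe u

open FF IntermediateField Pool.Agent.W619.PQ Pool.Agent.W619.PL Pool.Agent.W619.TW
  Pool.Agent.W619.X Pool.Agent.W619.Y

namespace Pool.Agent.Results.MP_fa3f7f_ag.MixedProductQuotients

/-- Assume that `Y` is uniruled or that `κ (Y) = ν (Y) = a`. Then for `X` birational to `Z / G`
* either `X` is uniruled, `K_X` is not pseudo-effective and `ν (X) = -∞`;
* or `Y` is not uniruled, the curves are irrational and `κ (X) = ν (X) = a + h`, where `h` is the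
  number of curves which are not elliptic. -/
theorem result {L : Type u} [Field L] [Algebra ℂ L] (d n : ℕ)
    (hn : Algebra.trdeg ℂ L = (d + n : ℕ))
    (M : IntermediateField ℂ L) [Algebra.EssFiniteType ℂ M] (hM : Algebra.trdeg ℂ M = d)
    (F : Fin n → IntermediateField ℂ L) (hF : ∀ i, IsFF ℂ (F i))
    (hsup : M ⊔ (⨆ i, F i) = ⊤)
    (G : Subgroup (L ≃ₐ[ℂ] L)) [Finite G] (σ : G →* Equiv.Perm (Fin n))
    (hσ : ∀ (g : G) i, ∀ z ∈ F i, (g : L ≃ₐ[ℂ] L) z ∈ F (σ g i))
    (h : MixedPos G σ F) (a : ℕ)
    (hY : IsUniruled ℂ M d ∨ (KodTr ℂ M d a ∧ NumLe ℂ M d (fun _ => False) a)) :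
    (IsUniruled ℂ (fixedField G) (d + n) ∧ ¬ IsPsef ℂ (fixedField G) (d + n) (fun _ => False) ∧
      NumNeg ℂ (fixedField G) (d + n) (fun _ => False)) ∨
    (¬ IsUniruled ℂ M d ∧ (∀ i, ¬ ∃ t : F i, ℂ⟮t⟯ = ⊤) ∧
      KodTr ℂ (fixedField G) (d + n) (a + {i | ¬ IsElliptic (F i)}.ncard) ∧
      KodGe ℂ (fixedField G) (d + n) (fun _ => False) (a + {i | ¬ IsElliptic (F i)}.ncard) ∧
      NumLe ℂ (fixedField G) (d + n) (fun _ => False)
        (a + {i | ¬ IsElliptic (F i)}.ncard)) :=
  mmM d n hn M hM F hsup G σ hσ h a hY

end Pool.Agent.Results.MP_fa3f7f_ag.MixedProductQuotients
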