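import Pool.Agent.Q73.MT.KodV

/-!
# Good minimal models of intermediate Kodaira dimension over products of projective spaces

For `i < r` let `ℓ i k = 0`, `k < q i`, be hyperplanes in projective `n i`-space, an arbitrary
arrangement which is not reducible, let `N` be the sum of the numbers `n i`, and let `V` be any variety
of dimension `N` with a generically finite rational map to the product of the projective spaces. If at
all prime divisors over `V` which lie over the hyperplanes the multiplicities are large enough
(`Large`), then `κ (V)` is at least the sum of the `n i` over the factors which are not of Calabi-Yau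
type. If moreover the factors outside a set `I` of factors which are not of Calabi-Yau type consist
of `n i + 2` hyperplanes in general position, over which the ramification indices are at most
`n i + 2`, and all other ramification over prime divisors of the product lies over divisors which come
from the product of the factors in `I`, then `κ (V) = ν (V)` is the sum of the `n i`, `i ∈ I`. By
published theorems (`κ = ν ≥ 0` gives a good minimal model: Lai, Gongyo-Lehmann; not formalized) `V`
is then birational to a projective variety with terminal singularities and nef canonical divisor.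

The function-field language of the starting repository is used: prime divisors over `V` are the
divisorial places `P` of the function field `K` of `V` (`Divisorial`), `P.ord` is the order along
`P`; `KodGe ℂ K N (fun _ => False) h` says that `κ (V) ≥ h` (`Pool/Agent/W602/GT`), and
`NumLe ℂ K N (fun _ => False) h` that `ν (V) ≤ h`: for every divisor `A` (generated by a finite set of
functions) there is `C` with `h⁰ (m K_V + A) ≤ C m ^ h` for all `m ≥ 1` (`Pool/Agent/W619/TW`).
-/

set_option autoImplicit false

open FF Module Pool.Agent.W602.Cov Pool.Agent.W602.GT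

namespace Pool.Agent.Results.MP_fa3f7f_ag.MultiprojectiveIntermediate

/-- In suitable linear coordinates `X 0, ..., X n` each of the hyperplanes is one of `X j = 0` or
`X 0 + ... + X n = 0`. The arrangements with this property which are not reducible are, up to
repetitions, the arrangements of `n + 2` hyperplanes in general position. -/
def Simplicial {n q : ℕ} (ℓ : Fin q → Form n) : Prop :=
  ∃ X : Basis (Fin (n + 1)) ℂ (Form n), ∀ i,
    (∃ c : ℂ, ℓ i = c • ∑ j, X j) ∨ ∃ (j : Fin (n + 1)) (c : ℂ), ℓ i = c • X j

/-- The bound for one arrangement in projective `n`-space: `n + 2`, and even `n + 1` if the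
arrangement is not simplicial. -/
def Bound {n q : ℕ} (ℓ : Fin q → Form n) (d : ℕ) : Prop :=
  d = n + 2 ∨ (d = n + 1 ∧ (Reducible ℓ ∨ ¬ Simplicial ℓ))

/-- The arrangement consists of the `n + 2` hyperplanes `ℓ (c j) = 0`, which are in general
position: each `n + 1` of the forms are linearly independent. Hyperplanes may be listed several
times. -/
def GeneralPosition {n q : ℕ} (ℓ : Fin q → Form n) (c : Fin (n + 2) → Fin q) : Prop :=
  (∀ j : Fin (n + 2), LinearIndependent ℂ fun a => ℓ (c (j.succAbove a))) ∧
    ∀ i, ∃ (j : Fin (n + 2)) (t : ℂ), ℓ i = t • ℓ (c j)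

/-- The value of a linear form at a vector over `K`. -/
noncomputable def form {n : ℕ} {K : Type} [Field K] [Algebra ℂ K] (φ : Form n)
    (x : Fin (n + 1) → K) : K := ∑ j, algebraMap ℂ K (φ (Pi.single j 1)) * x j

variable {r : ℕ} {n q : Fin r → ℕ} {K : Type} [Field K] [Algebra ℂ K]

/-- The sum of the maximal multiplicities `v i k / d i` is greater than `1`, or only one factor `i`
has multiplicities and one of them is at least `n i + 2`. -/
def Large (n d : Fin r → ℕ) (v : ∀ i, Fin (q i) → ℕ) : Prop :=
  (∃ k : ∀ i, Fin (q i), (1 : ℚ) < ∑ i, (v i (k i) : ℚ) / d i) ∨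
    ∃ i, (∀ j, j ≠ i → v j = 0) ∧ ∃ k, n i + 2 ≤ v i k

/-- The affine coordinates of the product of the projective spaces. -/
noncomputable def affine (x : ∀ i, Fin (n i + 1) → K) (b : (i : Fin r) × Fin (n i)) : K :=
  x b.1 b.2.succ / x b.1 0

/-- The hyperplanes `ℓ i k` have the multiplicities `v i k` at `P`: their orders are `a i + v i k`,
where `a i` is the minimum of the orders of all linear forms on the `i`-th factor. -/
def Multiplicities (ℓ : ∀ i, Fin (q i) → Form (n i)) (x : ∀ i, Fin (n i + 1) → K)
    (P : Place ℂ K) (a : Fin r → ℤ) (v : ∀ i, Fin (q i) → ℕ) : Prop :=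
  (∀ i (φ : Form (n i)), form φ (x i) = 0 ∨ a i ≤ P.ord (form φ (x i))) ∧
    (∀ i, ∃ φ : Form (n i), form φ (x i) ≠ 0 ∧ P.ord (form φ (x i)) = a i) ∧
    ∀ i k, P.ord (form (ℓ i k) (x i)) = a i + v i k

open scoped Classical in
/-- The `i`-th factor is of Calabi-Yau type: its arrangement consists of `n i + 2` hyperplanes in
general position, and for each of them there is a prime divisor over `V` at which this hyperplane has
the multiplicity `n i + 2` and all other hyperplanes (of all factors) have the multiplicity `0`. -/
def CalabiYau (N : ℕ) (ℓ : ∀ i, Fin (q i) → Form (n i)) (x : ∀ i, Fin (n i + 1) → K)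
    (i : Fin r) : Prop :=
  ∃ c : Fin (n i + 2) → Fin (q i), GeneralPosition (ℓ i) c ∧
    ∀ j, ∃ P : Place ℂ K, Divisorial N P ∧ ∃ (a : Fin r → ℤ) (v : ∀ i, Fin (q i) → ℕ),
      Multiplicities ℓ x P a v ∧
      (v i = fun k => if ∃ t : ℂ, ℓ i k = t • ℓ i (c j) then n i + 2 else 0) ∧
      ∀ j', j' ≠ i → v j' = 0

/-- The degree in the affine coordinates of the `i`-th factor. -/
def degree (i : Fin r) (f : MvPolynomial ((i : Fin r) × Fin (n i)) ℂ) : ℕ :=
  f.support.sup fun m => ∑ j : Fin (n i), m ⟨i, j⟩

/-- The place `P` lies over a prime divisor of the product of the projective spaces, with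
ramification index `m`: over the prime divisor `p = 0` of the affine space, or over the hyperplane at
infinity of one of the factors. -/
def LiesOver (x : ∀ i, Fin (n i + 1) → K) (P : Place ℂ K) (m : ℕ) : Prop :=
  (∃ p : MvPolynomial ((i : Fin r) × Fin (n i)) ℂ, Irreducible p ∧
    P.ord (MvPolynomial.aeval (affine x) p) = m ∧
    ∀ f, f ≠ 0 → 0 ≤ P.ord (MvPolynomial.aeval (affine x) f) ∧
      (P.ord (MvPolynomial.aeval (affine x) f) = 0 ↔ ¬ p ∣ f)) ∨
  (0 < m ∧ ∃ i, ∀ f, f ≠ 0 →
    P.ord (MvPolynomial.aeval (affine x) f) = - ((m : ℤ) * (degree i f : ℤ)))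

/-- The ramification over the prime divisors of the product: if the place `P` with ramification
index `m` does not lie over one of the hyperplanes or over one of the hypersurfaces `f = 0`, `f ∈ F`,
then it is not ramified; and if it lies over one of the hyperplanes of the `i`-th factor, `i ∉ I`,
then `m ≤ n i + 2`. -/
def Ramification (ℓ : ∀ i, Fin (q i) → Form (n i)) (x : ∀ i, Fin (n i + 1) → K)
    (I : Finset (Fin r)) (F : Finset (MvPolynomial ((i : Fin r) × Fin (n i)) ℂ)) : Prop :=
  ∀ P m, LiesOver x P m → ∀ (a : Fin r → ℤ) (v : ∀ i, Fin (q i) → ℕ), Multiplicities ℓ x P a v →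
    ((∀ i, v i = 0) → (∀ f ∈ F, P.ord (MvPolynomial.aeval (affine x) f) = 0) → m = 1) ∧
      ∀ i, i ∉ I → v i ≠ 0 → m ≤ n i + 2

/-- Let `V` be a variety of dimension `N = ∑ i, n i` with function field `K` and a generically finite
rational map to the product of the projective spaces, with coordinates `x i`; let the arrangements
`ℓ i` be not reducible, and let the multiplicities be large at all prime divisors over `V` which lie
over the hyperplanes.
**(1)** If the factors in `I` are not of Calabi-Yau type then `κ (V) ≥ ∑ i ∈ I, n i`.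
**(2)** If moreover the arrangements of the factors outside `I` consist of `n i + 2` hyperplanes in
general position, and the ramification is as in `Ramification`, for finitely many polynomials
`f ≠ 0` in the coordinates of the factors in `I`, then `κ (V) = ν (V) = ∑ i ∈ I, n i`. -/
theorem result (r N : ℕ) (n q : Fin r → ℕ) (hr : 1 ≤ r) (hn : ∀ i, 1 ≤ n i) (hN : N = ∑ i, n i)
    (ℓ : ∀ i, Fin (q i) → Form (n i)) (hℓ : ∀ i k, ℓ i k ≠ 0) (hirr : ∀ i, ¬ Reducible (ℓ i))
    (d : Fin r → ℕ) (hd : ∀ i, Bound (ℓ i) (d i)) (K : Type) [Field K] [Algebra ℂ K]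
    (x : ∀ i, Fin (n i + 1) → K) (hx0 : ∀ i, x i 0 ≠ 0) (hbas : IsTranscendenceBasis ℂ (affine x))
    (hfd : FiniteDimensional (IntermediateField.adjoin ℂ (Set.range (affine x))) K)
    (hlow : ∀ P : Place ℂ K, Divisorial N P → ∀ (a : Fin r → ℤ) (v : ∀ i, Fin (q i) → ℕ),
      Multiplicities ℓ x P a v → (∃ i, v i ≠ 0) → Large n d v)
    (I : Finset (Fin r)) (hI : ∀ i ∈ I, ¬ CalabiYau N ℓ x i) :
    KodGe ℂ K N (fun _ => False) (∑ i ∈ I, n i) ∧
    ∀ (c : ∀ i, Fin (n i + 2) → Fin (q i)) (F : Finset (MvPolynomial ((i : Fin r) × Fin (n i)) ℂ)),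
      (∀ i, i ∉ I → GeneralPosition (ℓ i) (c i)) →
      (∀ f ∈ F, f ≠ 0 ∧ ∀ i, i ∉ I → degree i f = 0) → Ramification ℓ x I F →
      KodGe ℂ K N (fun _ => False) (∑ i ∈ I, n i) ∧
      Pool.Agent.W619.TW.NumLe ℂ K N (fun _ => False) (∑ i ∈ I, n i) := by
  have hkod : KodGe ℂ K N (fun _ => False) (∑ i ∈ I, n i) :=
    Pool.Agent.Q73.MT.kodV hr hn hN hℓ hx0 hbas d hd hirr hlow I
      fun i hi hc => hI i hi hc
  exact ⟨hkod, fun c F hc hF hR => ⟨hkod, Pool.Agent.Q73.MT.nuV hr hn hN hℓ I c hc F
    (fun f hf => (hF f hf).1) (fun f hf => (hF f hf).2) hx0 hbas hfd hR⟩⟩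

end Pool.Agent.Results.MP_fa3f7f_ag.MultiprojectiveIntermediate
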