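import Pool.Agent.Q298.EF.IsoGeo
import Pool.Agent.Q298.IS.Num
import Pool.Agent.Q298.JS.Tow

/-!
# Isotrivial fibrations over the image of several powerful linear systems

Let `X` be a projective variety with terminal singularities (for instance a manifold) and let
`|V_1|, ..., |V_c|` be linear systems on `X` without fixed components. Let `Y_j` be the image of the
rational map of `X` to the product of the first `j` projective spaces, a variety of the dimension
`d_1 + ... + d_j` with `d_j ≥ 1`; it need not be a product. Let `V_j` be of dimension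
`n_j = d_j + k_j`. Suppose:

* (position) for each `j`, the images of the general fibres of `X ⇢ Y_{j-1}` (of the Stein
  factorization) in the projective space of `V_j` are nondegenerate;
* (the members) `V_j` is spanned by finitely many members `D_i` of `|V_j|`, in arbitrary position, and
  `V_j` is not the direct sum of two nonzero subspaces such that each `D_i` belongs to one of them; at
  every prime divisor `P` of `X` which is a component of some `D_i`, some `D_i'` has the multiplicity
  at least `s_j`, where `2 s_j > R_j (k_j + 1) (k_j + 2)` with `R_j = n_j + 2`, or `R_j = n_j + 1` if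
  there are at least `n_j + 3` different members;
* (the fibres) the map of `X` to `Y = Y_c` is isotrivial: for some variety `Y''` with a generically
  finite map to `Y`, ramified anywhere, the main component `X''` of the fibre product `X ×_Y Y''` (its
  function field is `K'' = K(α)`, where `α` is algebraic over the function field of `Y`) is birational
  to a product `F₀ × Y'`, where `F₀` is an arbitrary projective manifold of dimension `e`.

Let `d = d_1 + ... + d_c` be the dimension of `Y`. Then

* if `F₀` is uniruled then `X` is uniruled, so it has a Mori fibre space (Birkar, Cascini, Hacon,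
  McKernan);
* if `κ(F₀) ≥ a` then `κ(X) ≥ d + a`; if `ν(F₀) ≤ a` then `ν(X) ≤ d + a`.

So if `κ(F₀) = ν(F₀) ≥ 0` then `κ(X) = ν(X)`, which is known to imply that `X` has a good minimal
model: the minimal model conjecture holds for `X` if `F₀` is uniruled or `κ(F₀) = ν(F₀)`, for instance
if `F₀` is of dimension at most three.

The linear systems can be combined to the one linear system of their products, but for it the
condition on the multiplicities would be much stronger (`n + 1` is the product of the `n_j + 1`, and a
component of a member of one system only must have the high multiplicity for the combined system).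
For `c = 1` this is the situation of `Pool.Agent.Results.MP_5ff3c6_ag.IsotrivialAbundance`.

The function-field language of the starting repository is used. `K` is the function field of `X`;
the prime divisors of `X` are places `P` of `K` (`Place`, `Divisorial`), `P.ord` is the order along
`P`, and `X` is given by the set of its prime divisors. A linear system is given by a finite
dimensional space `V` of rational functions: if `a` is the minimum of the orders at `P` of the
members of `V` then the multiplicity of `P` in the divisor of the system which is given by `f ∈ V` is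
`P.ord f - a`. A section of `N K_X` is an `N`-canonical form `ω` (`IsPluri`), a function of rational
vector fields, whose value on vector fields that are regular at `P` is regular at `P`, for
all prime divisors `P` of `X`. For `F₀`, with the function field `M`, all divisorial places of `M`
are taken: these are the sections of `N K` on a smooth projective model. `NumLe ℂ K w (fun _ => False)
b` says that `ν ≤ b` for the smooth models of `K`, a field of transcendence degree `w`: for every
divisor `A`, given as the polar divisor of finitely many rational functions on a smooth model, there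
is a constant `C` with `h⁰(m K + A) ≤ C m ^ b` for all `m ≥ 1`.

Proof. The generalised Wronskians of `V_j` with respect to vector fields which are tangent to the
fibres of `X ⇢ Y_{j-1}` (`Pool.Agent.Q298.JS.RFr`) do not vanish, as the members are linearly
independent over the algebraic closure of the function field of `Y_{j-1}`. Multiplied by forms along
the fibres of `X ⇢ Y_j` they give forms along the fibres of `X ⇢ Y_{j-1}` which are regular at all
prime divisors of `X`, including the vertical ones (`lin_stage`). The induction starts with the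
pluricanonical forms of `F₀`, see `Pool.Agent.Q298.EF.iso_geo`. For the upper bound of `ν(X)`, see
`Pool.Agent.Q298.IS.iso_num`.
-/

set_option autoImplicit false

open FF Pool.Agent.W602.GT Pool.Agent.W619.TW

namespace Pool.Agent.Results.MP_fa3f7f_ag.SeveralSystemsIsotrivial

/-- The function field of the image `Y_j` of `X` under the first `j` linear systems: the field which
is generated by the quotients of the members of each of them. -/
noncomputable def ImageField {K : Type} [Field K] [Algebra ℂ K] {c : ℕ}
    (V : Fin c → Submodule ℂ K) (j : ℕ) : IntermediateField ℂ K :=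
  IntermediateField.adjoin ℂ {y : K | ∃ i : Fin c, (i : ℕ) < j ∧ ∃ f ∈ V i, ∃ g ∈ V i, y = f / g}

/-- The algebraic closure of the subfield `L` in `K`. -/
noncomputable def ClosureIn {K : Type} [Field K] [Algebra ℂ K] (L : IntermediateField ℂ K) :
    IntermediateField ℂ K :=
  (algebraicClosure L K).restrictScalars ℂ

/-- `V` is the direct sum of two nonzero subspaces such that each `φ i` belongs to one of them. -/
def Splits {q : ℕ} {K : Type} [Field K] [Algebra ℂ K] (V : Submodule ℂ K) (φ : Fin q → K) : Prop :=
  ∃ V1 V2 : Submodule ℂ K, V1 ≠ ⊥ ∧ V2 ≠ ⊥ ∧ Disjoint V1 V2 ∧ V1 ⊔ V2 = V ∧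
    ∀ i, φ i ∈ V1 ∨ φ i ∈ V2

/-- There are `r` members `φ i` of which no two are proportional. -/
def Different (r : ℕ) {q : ℕ} {K : Type} [Field K] [Algebra ℂ K] (φ : Fin q → K) : Prop :=
  ∃ τ : Fin r → Fin q, ∀ i j, i ≠ j → ∀ t : ℂ, φ (τ i) ≠ t • φ (τ j)

/-- The condition on the multiplicities, on a variety `X` of dimension `w`: if the prime divisor `P`
of `X` is a component of one of the divisors `D i` (the order of `φ i` at `P` is not the minimum `a`
of the orders of the members of `V`), then some `D i` has multiplicity at least `s` at `P`. -/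
def Multiplicities (w : ℕ) {q : ℕ} {K : Type} [Field K] [Algebra ℂ K] (V : Submodule ℂ K)
    (φ : Fin q → K) (X : Set (Place ℂ K)) (s : ℕ) : Prop :=
  ∀ P ∈ X, Divisorial w P → ∀ a : ℤ, (∀ f ∈ V, f = 0 ∨ a ≤ P.ord f) →
    (∃ f ∈ V, f ≠ 0 ∧ P.ord f = a) → (∃ i, P.ord (φ i) ≠ a) → ∃ i, a + s ≤ P.ord (φ i)

/-- The hypotheses on the linear systems `V i` on a variety `X` of dimension `w`. The dimension of
`Y_j` is the sum of the `d i` with `i < j`, `V i` has the dimension `d i + k i` as a linear system
and, by `nondegenerate`, this remains true for the space which it spans over the algebraic closure of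
the function field of the image under the previous linear systems. -/
structure PowerfulSystems {K : Type} [Field K] [Algebra ℂ K] (w : ℕ) (X : Set (Place ℂ K)) {c : ℕ}
    (d k : Fin c → ℕ) (V : Fin c → Submodule ℂ K) : Prop where
  pos : ∀ i, 1 ≤ d i
  dim : ∀ j ≤ c, Algebra.trdeg ℂ (ImageField V j) =
    (∑ i ∈ Finset.univ.filter (fun i : Fin c => (i : ℕ) < j), d i : ℕ)
  rank : ∀ i, Module.finrank ℂ (V i) = d i + k i + 1
  nondegenerate : ∀ i : Fin c, Module.finrank (ClosureIn (ImageField V i))
    (Submodule.span (ClosureIn (ImageField V i)) (V i : Set K)) = d i + k i + 1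
  members : ∀ i, ∃ (q : ℕ) (φ : Fin q → K) (R s : ℕ), (∀ j, φ j ≠ 0) ∧
    Submodule.span ℂ (Set.range φ) = V i ∧ ¬ Splits (V i) φ ∧
    (R = d i + k i + 2 ∨ (Different (d i + k i + 3) φ ∧ R = d i + k i + 1)) ∧
    R * ((k i + 1) * (k i + 2)) < 2 * s ∧ Multiplicities w (V i) φ X s

/-- The image of the subfield `L` of `K` in the extension `K'`. -/
noncomputable def Up {K : Type} (K' : Type) [Field K] [Field K'] [Algebra ℂ K] [Algebra ℂ K']
    [Algebra K K'] [IsScalarTower ℂ K K'] (L : IntermediateField ℂ K) : IntermediateField ℂ K' :=
  L.map (IsScalarTower.toAlgHom ℂ K K')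

/-- `ω` is a section of `N K_X`, where `X` of dimension `w` is given by the set of its prime divisors:
an `N`-canonical form whose values on vector fields which are regular at `P` are regular at `P`, for
all prime divisors `P` of `X`. -/
def IsSection {K : Type} [Field K] [Algebra ℂ K] (w : ℕ) (X : Set (Place ℂ K)) (N : ℕ)
    (ω : (Fin w → Derivation ℂ K K) → K) : Prop :=
  IsPluri N ω ∧ ∀ P ∈ X, Divisorial w P → ∀ D : Fin w → Derivation ℂ K K,
    (∀ i, DerReg P (D i)) → P.Reg (ω D)

/-- `κ (X) ≥ κ`: some positive multiple of `K_X` has sections with `κ` algebraically independent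
ratios (a nonzero section, if `κ = 0`). -/
def KodairaGe {K : Type} [Field K] [Algebra ℂ K] (w : ℕ) (X : Set (Place ℂ K)) (κ : ℕ) : Prop :=
  ∃ N : ℕ, 0 < N ∧ ∃ ω : Fin (κ + 1) → (Fin w → Derivation ℂ K K) → K,
    (∀ j, IsSection w X N (ω j)) ∧
    ∃ D, ω 0 D ≠ 0 ∧ AlgebraicIndependent ℂ (fun i : Fin κ => ω i.succ D / ω 0 D)

/-- Uniruled function fields of transcendence degree `w`: `K` embeds into the field of rational
functions `M(t)` over the function field `M` of a variety of dimension `w - 1`. -/
def IsUniruled (K : Type) [Field K] [Algebra ℂ K] (w : ℕ) : Prop :=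
  ∃ (M : Type) (_ : Field M) (_ : Algebra ℂ M), Algebra.EssFiniteType ℂ M ∧
    Algebra.trdeg ℂ M + 1 = w ∧ Nonempty (K →ₐ[ℂ] RatFunc M)

theorem closure_eq {K : Type} [Field K] [Algebra ℂ K] (L : IntermediateField ℂ K) :
    ClosureIn L = Pool.Agent.Y172.acl ℂ (L : Set K) := by
  ext z
  rw [Pool.Agent.Q298.JS.mem_A]
  unfold ClosureIn
  rw [IntermediateField.mem_restrictScalars, mem_algebraicClosure_iff]

theorem PowerfulSystems.sys {K : Type} [Field K] [Algebra ℂ K] {w : ℕ} {X : Set (Place ℂ K)}
    {c : ℕ} {d k : Fin c → ℕ} {V : Fin c → Submodule ℂ K} (h : PowerfulSystems w X d k V) :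
    Pool.Agent.Q298.JS.Sys w X d k V (fun _ _ => 0) := by
  refine ⟨h.pos, h.dim, h.rank, fun i => ?_, fun i => ?_⟩
  · have h1 := h.nondegenerate i
    rw [closure_eq] at h1
    exact h1
  · obtain ⟨q, φ, R, s, h1, h2, h3, h4, h5, h6⟩ := h.members i
    refine ⟨q, φ, R, s, h1, h2, h3, h4, by exact_mod_cast h5, fun P hPX hPd a ha hb hc => ?_⟩
    obtain ⟨j, hj⟩ := h6 P hPX hPd a ha hb hc
    refine ⟨j, ?_⟩
    have h7 : (s : ℤ) ≤ P.ord (φ j) - a := by omega
    have h8 : ((s : ℤ) : ℝ) ≤ ((P.ord (φ j) - a : ℤ) : ℝ) := by exact_mod_cast h7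
    simpa using h8

/-- **Isotrivial fibrations over the image of several powerful linear systems.** Let `K` be the
function field of a projective variety `X` with terminal singularities of dimension `d + e`, where
`d` is the sum of the `d i`, and let `V i` be linear systems on `X` with `PowerfulSystems`. Let
`K' = K (α)`, where `α` is algebraic over the function field of the image `Y` of `X` under all `V i`,
be generated by the elements which are algebraic over the function field of `Y` and by the function
field `M` of a variety `F₀` of dimension `e`. If `F₀` is uniruled then `X` is uniruled; and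
`κ (F₀) ≥ a` implies `κ (X) ≥ d + a`, and `ν (F₀) ≤ a` implies `ν (X) ≤ d + a`. -/
theorem result (c e : ℕ) (d k : Fin c → ℕ) (K : Type) [Field K] [Algebra ℂ K]
    [Algebra.EssFiniteType ℂ K] (hK : Algebra.trdeg ℂ K = (∑ i, d i + e : ℕ))
    (V : Fin c → Submodule ℂ K) (X : Set (Place ℂ K))
    (hV : PowerfulSystems (∑ i, d i + e) X d k V)
    (K' : Type) [Field K'] [Algebra ℂ K'] [Algebra K K'] [IsScalarTower ℂ K K'] (α : K')
    (hα : IsAlgebraic (Up K' (ImageField V c)) α) (hαt : IntermediateField.adjoin K {α} = ⊤)
    (M : IntermediateField ℂ K') [Algebra.EssFiniteType ℂ M] (hM : Algebra.trdeg ℂ M = e)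
    (hprod : IntermediateField.adjoin ℂ
      ({a | IsAlgebraic (Up K' (ImageField V c)) a} ∪ (M : Set K')) = ⊤) :
    (IsUniruled M e → IsUniruled K (∑ i, d i + e)) ∧
      ∀ a : ℕ, (KodairaGe e (Set.univ : Set (Place ℂ M)) a →
          KodairaGe (∑ i, d i + e) X (∑ i, d i + a)) ∧
        (NumLe ℂ M e (fun _ => False) a →
          NumLe ℂ K (∑ i, d i + e) (fun _ => False) (∑ i, d i + a)) := by
  have hαK : IsAlgebraic K α := by
    have h1 : ∀ z ∈ Up K' (ImageField V c), ∃ a : K, algebraMap K K' a = z := by
      intro z hz
      unfold Up at hz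
      rw [IntermediateField.mem_map] at hz
      obtain ⟨a, -, ha⟩ := hz
      exact ⟨a, ha⟩
    obtain ⟨p, hp0, hp⟩ := hα
    obtain ⟨p', hp'⟩ : ∃ p' : Polynomial K, p'.map (algebraMap K K') =
        p.map (algebraMap (Up K' (ImageField V c)) K') := by
      refine (Polynomial.mem_lifts _).1 ((Polynomial.lifts_iff_coeff_lifts _).2 fun i => ?_)
      rw [Polynomial.coeff_map]
      obtain ⟨a, ha⟩ := h1 _ (p.coeff i).2
      exact ⟨a, ha⟩
    refine ⟨p', ?_, ?_⟩
    · rintro rfl
      rw [Polynomial.map_zero] at hp'
      exact hp0 ((Polynomial.map_eq_zero _).1 hp'.symm)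
    · rw [← Polynomial.eval_map_algebraMap, hp', Polynomial.eval_map_algebraMap]
      exact hp
  have hfin : FiniteDimensional K K' := by
    have h1 : FiniteDimensional K (IntermediateField.adjoin K {α}) :=
      IntermediateField.adjoin.finiteDimensional hαK.isIntegral
    rw [hαt] at h1
    exact Module.Finite.of_surjective
      (IntermediateField.topEquiv : (⊤ : IntermediateField K K') ≃ₐ[K] K').toLinearMap
      (IntermediateField.topEquiv).surjective
  have htop : ∀ z : K', ∃ p : Polynomial K, z = Polynomial.aeval α p := by
    intro z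
    have h1 : z ∈ IntermediateField.adjoin K {α} := by
      rw [hαt]
      trivial
    rw [← IntermediateField.mem_toSubalgebra,
      IntermediateField.adjoin_simple_toSubalgebra_of_isAlgebraic hαK,
      Algebra.adjoin_singleton_eq_range_aeval] at h1
    obtain ⟨p, hp⟩ := h1
    exact ⟨p, hp.symm⟩
  have hgen : Pool.Agent.Y172.acl ℂ (Up K' (ImageField V c) : Set K') ⊔ M = ⊤ := by
    rw [eq_top_iff, ← hprod, IntermediateField.adjoin_le_iff]
    rintro z (hz | hz)
    · refine (le_sup_left : Pool.Agent.Y172.acl ℂ (Up K' (ImageField V c) : Set K') ≤ _) ?_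
      rw [Pool.Agent.Y172.mem_acl, IntermediateField.adjoin_self]
      exact hz
    · exact (le_sup_right : M ≤ _) hz
  have hS := hV.sys
  have htr : Algebra.trdeg ℂ (ImageField V c) = (∑ i, d i : ℕ) := hS.top
  obtain ⟨hU, hF⟩ := Pool.Agent.Q298.EF.iso_geo hK htr (α := α) hα htop hM hgen X
  refine ⟨hU, fun a => ⟨fun hMa => ?_, fun hnum => ?_⟩⟩
  · obtain ⟨m₀, hm₀, η, hη, hne₀⟩ := hMa
    obtain ⟨m, hm, θ, hθ, hne⟩ := hF m₀ a hm₀ η
      (fun l => ⟨(hη l).1, fun P hP => (hη l).2 P (Set.mem_univ _) hP⟩) hne₀
    obtain ⟨N, hN, ω, h5, h6⟩ := hS.main (lam := a) hK (δ₂ := fun _ => 0) (δ := fun _ => 0)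
      (fun _ _ _ => le_rfl) (fun _ _ => by simp) ⟨m, hm, θ, hθ, hne⟩
    refine ⟨N, hN, ω, fun j => ⟨(h5 j).1, fun P hPX hPd D hD => ?_⟩, h6⟩
    rcases (h5 j).2 P hPX hPd D hD with h7 | h7
    · exact Or.inl h7
    · right
      have h8 : (0 : ℝ) ≤ (P.ord (ω j D) : ℝ) := by simpa using h7
      exact_mod_cast h8
  · have hfinK' : Algebra.EssFiniteType K K' := inferInstance
    have hess : Algebra.EssFiniteType ℂ K' := Algebra.EssFiniteType.comp ℂ K K'
    have hK' : Algebra.trdeg ℂ K' = (∑ i, d i + e : ℕ) := by
      have h0 : Algebra.IsAlgebraic K K' := inferInstance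
      rw [← _root_.trdeg_add_eq ℂ K (A := K'), trdeg_eq_zero_iff.2 h0, add_zero, hK]
    have hLup : Algebra.trdeg ℂ (Up K' (ImageField V c)) = (∑ i, d i : ℕ) := by
      rw [← htr]
      exact (((ImageField V c).equivMap (IsScalarTower.toAlgHom ℂ K K')).trdeg_eq).symm
    exact Pool.Agent.Q298.EF.num_down hK (Pool.Agent.Q298.IS.iso_num (M := M)
      (F := Pool.Agent.Y172.acl ℂ (Up K' (ImageField V c) : Set K')) hM
      (by rw [Pool.Agent.Q298.EF.trdeg_acl, hLup]) hK' (by rw [sup_comm]; exact hgen)
      (Pool.Agent.Y172.acl_closed _) hnum)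

end Pool.Agent.Results.MP_fa3f7f_ag.SeveralSystemsIsotrivial
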